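import Pool.Agent.Y440.A.Stm

/-! 4-graphs in which every five vertices span an even number of edges: from the core inequality. -/

set_option autoImplicit false
set_option linter.unusedTactic false
set_option linter.unreachableTactic false
set_option linter.unnecessarySeqFocus false

open Finset

namespace Pool.Agent.Y705.Q440

open Pool.Agent.Y440.A

/-- the number of members of a family of 4-sets inside a 5-set -/
theorem nin_eq {n : ℕ} (H : Finset (Finset (Fin n))) (hH : H ⊆ powersetCard 4 univ)
    (P : Finset (Fin n)) (hP : P.card = 5) :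
    nin H P = ∑ x ∈ P, if P.erase x ∈ H then 1 else 0 := by
  classical
  rw [← Finset.card_filter]
  unfold nin
  have e : H.filter (· ⊆ P) = (P.filter (fun x => P.erase x ∈ H)).image (fun x => P.erase x) := by
    ext Q
    simp only [mem_filter, mem_image]
    constructor
    · rintro ⟨hQ, hQP⟩
      have h4 : Q.card = 4 := (mem_powersetCard.1 (hH hQ)).2
      have h1 : (P \ Q).card = 1 := by
        rw [card_sdiff_of_subset hQP, hP, h4]
      obtain ⟨x, hx⟩ := card_eq_one.1 h1
      have hxP : x ∈ P ∧ x ∉ Q := by
        rw [← mem_sdiff, hx]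
        exact mem_singleton_self _
      have hE : P.erase x = Q := by
        rw [← Finset.sdiff_singleton_eq_erase, ← hx, sdiff_sdiff_right_self]
        exact inf_eq_right.2 hQP
      exact ⟨x, ⟨hxP.1, by rw [hE]; exact hQ⟩, hE⟩
    · rintro ⟨x, ⟨_, hx⟩, rfl⟩
      exact ⟨hx, erase_subset _ _⟩
  rw [e, card_image_of_injOn]
  intro x hx y hy hxy
  simp only [coe_filter, Set.mem_ofPred_eq] at hx hy
  by_contra hne
  have h1 : x ∈ P.erase y := mem_erase.2 ⟨hne, hx.1⟩
  have h2 : P.erase x = P.erase y := hxy
  rw [← h2] at h1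
  exact (mem_erase.1 h1).1 rfl

section
variable {n : ℕ} (H : Finset (Finset (Fin n))) (v : Fin n)

open Classical in
/-- indicator of a triple together with `v` -/
noncomputable def FF (a b c : Fin n) : ℕ := if ({v, a, b, c} : Finset (Fin n)) ∈ H then 1 else 0

/-- the function `E` of the core inequality -/
noncomputable def EE (a b c d : Fin n) : ℕ :=
  (1 + FF H v a b c + FF H v a b d + FF H v a c d + FF H v b c d) % 2

theorem FF_01 (a b c : Fin n) : FF H v b a c = FF H v a b c := by
  unfold FF
  rw [Finset.insert_comm b a]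

theorem FF_12 (a b c : Fin n) : FF H v a c b = FF H v a b c := by
  unfold FF
  rw [Finset.pair_comm c b]

theorem EE_odd : Odd4 (EE H v) := by
  refine ⟨fun a b c d => ?_, fun a b c d => ?_, fun a b c d => ?_, fun a b c d => ?_,
    fun a b c d e => ?_⟩
  · unfold EE; omega
  · unfold EE
    rw [FF_01 H v a b c, FF_01 H v a b d]
    congr 1
    ring
  · unfold EE
    rw [FF_12 H v a b c, FF_01 H v b c d]
    congr 1
    ring
  · unfold EE
    rw [FF_12 H v a c d, FF_12 H v b c d]
    congr 1
    ring
  · unfold EE; omega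

variable {H v}

theorem FF_zero (hH : H ⊆ powersetCard 4 univ) {a b c : Fin n}
    (h : ({v, a, b, c} : Finset (Fin n)).card ≠ 4) : FF H v a b c = 0 := by
  unfold FF
  rw [if_neg]
  intro h'
  exact h (mem_powersetCard.1 (hH h')).2

theorem EE_eq (hH : H ⊆ powersetCard 4 univ)
    (hev : ∀ P ∈ powersetCard 5 (univ : Finset (Fin n)), Even (nin H P)) {a b c d : Fin n}
    (hab : a ≠ b) (hac : a ≠ c) (had : a ≠ d) (hbc : b ≠ c) (hbd : b ≠ d) (hcd : c ≠ d) :
    EE H v a b c d + (if ({a, b, c, d} : Finset (Fin n)) ∈ H then 1 else 0) = 1 := by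
  classical
  have h3 : ∀ x y z w : Fin n, ({x, y, z, w} : Finset (Fin n)).card = 4 →
      x ≠ y ∧ x ≠ z ∧ x ≠ w ∧ y ≠ z ∧ y ≠ w ∧ z ≠ w := by
    intro x y z w h
    have hle : ∀ p q r : Fin n, ({p, q, r} : Finset (Fin n)).card ≤ 3 := fun p q r =>
      Finset.card_le_three
    refine ⟨?_, ?_, ?_, ?_, ?_, ?_⟩ <;> rintro rfl
    · have := hle x z w
      simp at h
      omega
    · have := hle y x w
      have e : ({x, y, x, w} : Finset (Fin n)) = {y, x, w} := by ext t; simp <;> tauto
      rw [e] at h; omega
    · have := hle y z x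
      have e : ({x, y, z, x} : Finset (Fin n)) = {y, z, x} := by ext t; simp <;> tauto
      rw [e] at h; omega
    · have := hle x y w
      have e : ({x, y, y, w} : Finset (Fin n)) = {x, y, w} := by ext t; simp
      rw [e] at h; omega
    · have := hle x y z
      have e : ({x, y, z, y} : Finset (Fin n)) = {x, y, z} := by ext t; simp <;> tauto
      rw [e] at h; omega
    · have := hle x y z
      have e : ({x, y, z, z} : Finset (Fin n)) = {x, y, z} := by ext t; simp
      rw [e] at h; omega
  by_cases hva : v = a
  · subst hva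
    have e1 : FF H v v b c = 0 := FF_zero hH fun h => (h3 _ _ _ _ h).1 rfl
    have e2 : FF H v v b d = 0 := FF_zero hH fun h => (h3 _ _ _ _ h).1 rfl
    have e3 : FF H v v c d = 0 := FF_zero hH fun h => (h3 _ _ _ _ h).1 rfl
    unfold EE
    rw [e1, e2, e3]
    unfold FF
    split_ifs <;> rfl
  by_cases hvb : v = b
  · subst hvb
    have e1 : FF H v a v c = 0 := FF_zero hH fun h => (h3 _ _ _ _ h).2.1 rfl
    have e2 : FF H v a v d = 0 := FF_zero hH fun h => (h3 _ _ _ _ h).2.1 rfl
    have e3 : FF H v v c d = 0 := FF_zero hH fun h => (h3 _ _ _ _ h).1 rfl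
    unfold EE
    rw [e1, e2, e3]
    unfold FF
    rw [Finset.insert_comm v a]
    split_ifs <;> rfl
  by_cases hvc : v = c
  · subst hvc
    have e1 : FF H v a b v = 0 := FF_zero hH fun h => (h3 _ _ _ _ h).2.2.1 rfl
    have e2 : FF H v a v d = 0 := FF_zero hH fun h => (h3 _ _ _ _ h).2.1 rfl
    have e3 : FF H v b v d = 0 := FF_zero hH fun h => (h3 _ _ _ _ h).2.1 rfl
    unfold EE
    rw [e1, e2, e3]
    unfold FF
    have e4 : ({v, a, b, d} : Finset (Fin n)) = {a, b, v, d} := by ext t; simp <;> tauto
    rw [e4]
    split_ifs <;> rfl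
  by_cases hvd : v = d
  · subst hvd
    have e1 : FF H v a b v = 0 := FF_zero hH fun h => (h3 _ _ _ _ h).2.2.1 rfl
    have e2 : FF H v a c v = 0 := FF_zero hH fun h => (h3 _ _ _ _ h).2.2.1 rfl
    have e3 : FF H v b c v = 0 := FF_zero hH fun h => (h3 _ _ _ _ h).2.2.1 rfl
    unfold EE
    rw [e1, e2, e3]
    unfold FF
    have e4 : ({v, a, b, c} : Finset (Fin n)) = {a, b, c, v} := by ext t; simp <;> tauto
    rw [e4]
    split_ifs <;> rfl
  -- five distinct points
  have n1 : v ∉ ({a, b, c, d} : Finset (Fin n)) := by simp [hva, hvb, hvc, hvd]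
  have n2 : a ∉ ({b, c, d} : Finset (Fin n)) := by simp [hab, hac, had]
  have n3 : b ∉ ({c, d} : Finset (Fin n)) := by simp [hbc, hbd]
  have n4 : c ∉ ({d} : Finset (Fin n)) := by simp [hcd]
  have hP : ({v, a, b, c, d} : Finset (Fin n)).card = 5 := by
    rw [card_insert_of_notMem n1, card_insert_of_notMem n2, card_insert_of_notMem n3,
      card_insert_of_notMem n4, card_singleton]
  have h5 := hev {v, a, b, c, d} (mem_powersetCard.2 ⟨subset_univ _, hP⟩)
  rw [nin_eq H hH _ hP, sum_insert n1, sum_insert n2, sum_insert n3, sum_insert n4,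
    sum_singleton] at h5
  have f1 : ({v, a, b, c, d} : Finset (Fin n)).erase v = {a, b, c, d} := erase_insert n1
  have f2 : ({v, a, b, c, d} : Finset (Fin n)).erase a = {v, b, c, d} := by
    rw [Finset.insert_comm v a, erase_insert]
    simp only [mem_insert, mem_singleton, not_or]
    exact ⟨fun h => hva h.symm, hab, hac, had⟩
  have f3 : ({v, a, b, c, d} : Finset (Fin n)).erase b = {v, a, c, d} := by
    rw [Finset.insert_comm a b, Finset.insert_comm v b, erase_insert]
    simp only [mem_insert, mem_singleton, not_or]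
    exact ⟨fun h => hvb h.symm, hab.symm, hbc, hbd⟩
  have f4 : ({v, a, b, c, d} : Finset (Fin n)).erase c = {v, a, b, d} := by
    rw [Finset.insert_comm b c, Finset.insert_comm a c, Finset.insert_comm v c, erase_insert]
    simp only [mem_insert, mem_singleton, not_or]
    exact ⟨fun h => hvc h.symm, hac.symm, hbc.symm, hcd⟩
  have f5 : ({v, a, b, c, d} : Finset (Fin n)).erase d = {v, a, b, c} := by
    rw [Finset.pair_comm c d, Finset.insert_comm b d, Finset.insert_comm a d,
      Finset.insert_comm v d, erase_insert]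
    simp only [mem_insert, mem_singleton, not_or]
    exact ⟨fun h => hvd h.symm, had.symm, hbd.symm, hcd.symm⟩
  rw [f1, f2, f3, f4, f5] at h5
  unfold EE FF
  rw [Nat.even_iff] at h5
  have i1 : (if ({a, b, c, d} : Finset (Fin n)) ∈ H then 1 else 0) ≤ 1 := by split_ifs <;> omega
  omega

end

/-- at least 24 ordered quadruples for a four-set -/
theorem card_tuples {n : ℕ} (Q : Finset (Fin n)) (hQ : Q.card = 4) :
    24 ≤ (univ.filter (fun t : Fin n × Fin n × Fin n × Fin n =>
      ({t.1, t.2.1, t.2.2.1, t.2.2.2} : Finset (Fin n)) = Q)).card := by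
  classical
  let e : Fin 4 ≃ Q := (Finset.equivFinOfCardEq hQ).symm
  have h24 : Fintype.card (Equiv.Perm (Fin 4)) = 24 := by
    rw [Fintype.card_perm, Fintype.card_fin]; rfl
  rw [← h24, ← Finset.card_univ]
  refine Finset.card_le_card_of_injOn
    (fun σ : Equiv.Perm (Fin 4) => ((e (σ 0) : Fin n), (e (σ 1) : Fin n), (e (σ 2) : Fin n),
      (e (σ 3) : Fin n))) ?_ ?_
  · intro σ _
    simp only [coe_filter, mem_univ, true_and, Set.mem_ofPred_eq]
    ext x
    simp only [mem_insert, mem_singleton]
    constructor
    · rintro (rfl | rfl | rfl | rfl) <;> exact Subtype.prop _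
    · intro hx
      obtain ⟨i, hi⟩ : ∃ i : Fin 4, (e (σ i) : Fin n) = x :=
        ⟨σ.symm (e.symm ⟨x, hx⟩), by simp⟩
      fin_cases i
      · exact Or.inl hi.symm
      · exact Or.inr (Or.inl hi.symm)
      · exact Or.inr (Or.inr (Or.inl hi.symm))
      · exact Or.inr (Or.inr (Or.inr hi.symm))
  · intro σ _ τ _ h
    simp only [Prod.mk.injEq] at h
    obtain ⟨h0, h1, h2, h3⟩ := h
    apply Equiv.ext
    intro i
    apply e.injective
    apply Subtype.ext
    fin_cases i
    · exact h0
    · exact h1
    · exact h2
    · exact h3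

theorem tEven : S_even := by
  intro hcore n H hH hev
  classical
  rcases Nat.eq_zero_or_pos n with rfl | hn
  · have : H = ∅ := by
      rw [Finset.eq_empty_iff_forall_notMem]
      intro Q hQ
      have h1 := (mem_powersetCard.1 (hH hQ)).2
      have h2 : Q.card ≤ 0 := by
        have := card_le_univ Q
        simpa using this
      omega
    rw [this]
    simp
  · let v : Fin n := ⟨0, hn⟩
    have h1 := hcore (Fin n) (EE H v) (EE_odd H v)
    rw [Fintype.card_fin] at h1
    have h2 : ∑ a, ∑ b, ∑ c, ∑ d, EE H v a b c d =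
        ∑ t : Fin n × Fin n × Fin n × Fin n, EE H v t.1 t.2.1 t.2.2.1 t.2.2.2 := by
      rw [Fintype.sum_prod_type]
      refine Finset.sum_congr rfl fun a _ => ?_
      rw [Fintype.sum_prod_type]
      refine Finset.sum_congr rfl fun b _ => ?_
      rw [Fintype.sum_prod_type]
    rw [h2] at h1
    have h3 : ∑ t : Fin n × Fin n × Fin n × Fin n, (EE H v t.1 t.2.1 t.2.2.1 t.2.2.2 +
        if ({t.1, t.2.1, t.2.2.1, t.2.2.2} : Finset (Fin n)) ∈ H then 1 else 0) ≤ n ^ 4 := by
      have h4 : ∑ _t : Fin n × Fin n × Fin n × Fin n, 1 = n ^ 4 := by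
        rw [Finset.sum_const, Finset.card_univ]
        simp only [Fintype.card_prod, Fintype.card_fin, smul_eq_mul, mul_one]
        ring
      rw [← h4]
      refine Finset.sum_le_sum fun t _ => ?_
      obtain ⟨a, b, c, d⟩ := t
      simp only
      by_cases hd : ({a, b, c, d} : Finset (Fin n)) ∈ H
      · have hc := (mem_powersetCard.1 (hH hd)).2
        have hle : ∀ p q r : Fin n, ({p, q, r} : Finset (Fin n)).card ≤ 3 := fun p q r =>
          Finset.card_le_three
        have k1 : a ≠ b := by
          rintro rfl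
          have := hle a c d
          simp at hc
          omega
        have k2 : a ≠ c := by
          rintro rfl
          have := hle b a d
          have e : ({a, b, a, d} : Finset (Fin n)) = {b, a, d} := by ext t; simp <;> tauto
          rw [e] at hc; omega
        have k3 : a ≠ d := by
          rintro rfl
          have := hle b c a
          have e : ({a, b, c, a} : Finset (Fin n)) = {b, c, a} := by ext t; simp <;> tauto
          rw [e] at hc; omega
        have k4 : b ≠ c := by
          rintro rfl
          have := hle a b d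
          have e : ({a, b, b, d} : Finset (Fin n)) = {a, b, d} := by ext t; simp
          rw [e] at hc; omega
        have k5 : b ≠ d := by
          rintro rfl
          have := hle a b c
          have e : ({a, b, c, b} : Finset (Fin n)) = {a, b, c} := by ext t; simp <;> tauto
          rw [e] at hc; omega
        have k6 : c ≠ d := by
          rintro rfl
          have := hle a b c
          have e : ({a, b, c, c} : Finset (Fin n)) = {a, b, c} := by ext t; simp
          rw [e] at hc; omega
        exact (EE_eq hH hev k1 k2 k3 k4 k5 k6).le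
      · rw [if_neg hd, add_zero]
        rcases (EE_odd H v).bt a b c d with h | h <;> rw [h] <;> omega
    rw [Finset.sum_add_distrib, ← Finset.card_filter] at h3
    have h5 : 24 * H.card ≤ (univ.filter (fun t : Fin n × Fin n × Fin n × Fin n =>
        ({t.1, t.2.1, t.2.2.1, t.2.2.2} : Finset (Fin n)) ∈ H)).card := by
      have h6 := Finset.card_eq_sum_card_fiberwise (s := univ.filter
        (fun t : Fin n × Fin n × Fin n × Fin n =>
        ({t.1, t.2.1, t.2.2.1, t.2.2.2} : Finset (Fin n)) ∈ H)) (t := H)
        (f := fun t => ({t.1, t.2.1, t.2.2.1, t.2.2.2} : Finset (Fin n)))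
        (fun t ht => by
          simp only [coe_filter, mem_univ, true_and, Set.mem_ofPred_eq] at ht
          exact ht)
      rw [h6, mul_comm, ← smul_eq_mul, ← Finset.sum_const]
      refine Finset.sum_le_sum fun Q hQ => ?_
      refine (card_tuples Q (mem_powersetCard.1 (hH hQ)).2).trans ?_
      refine Finset.card_le_card fun t ht => ?_
      simp only [mem_filter, mem_univ, true_and] at ht ⊢
      exact ⟨by rw [ht]; exact hQ, ht⟩
    omega

end Pool.Agent.Y705.Q440

namespace Pool.Agent.Y705.Q440.Even

theorem t : Pool.Agent.Y440.A.S_even := Pool.Agent.Y705.Q440.tEven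

end Pool.Agent.Y705.Q440.Even
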