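import Pool.Agent.Y705.Q440.Even

/-! 4-graphs of density close to 11/16 in which every five vertices span an even number of edges. -/

set_option autoImplicit false

open Finset

namespace Pool.Agent.Y705.Q440.Lower

open Pool.Agent.Y440.A

variable {n : ℕ}

/-- the weight of a triple with the parts `U` (inside `A`) and `V` (outside) -/
def gp (M : Fin n → Fin n → ZMod 2) (U V : Finset (Fin n)) : ZMod 2 :=
  (if V = ∅ then 1 else 0) + (if U = ∅ then 1 else 0) +
    (if V.card = 1 then ∑ a ∈ U, ∑ b ∈ V, M a b else 0)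

/-- the weight of a triple -/
def gw (A : Finset (Fin n)) (M : Fin n → Fin n → ZMod 2) (T : Finset (Fin n)) : ZMod 2 :=
  gp M (T ∩ A) (T \ A)

/-- the weight of a quadruple -/
def hw (A : Finset (Fin n)) (M : Fin n → Fin n → ZMod 2) (Q : Finset (Fin n)) : ZMod 2 :=
  ∑ x ∈ Q, gw A M (Q.erase x)

theorem two_eq_zero' (x : ZMod 2) : x + x = 0 := by
  revert x; decide

theorem hw_cocycle (A : Finset (Fin n)) (M : Fin n → Fin n → ZMod 2) (P : Finset (Fin n)) :
    ∑ x ∈ P, hw A M (P.erase x) = 0 := by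
  classical
  unfold hw
  rw [Finset.sum_sigma']
  refine Finset.sum_involution (fun p _ => ⟨p.2, p.1⟩) ?_ ?_ ?_ ?_
  · rintro ⟨x, y⟩ h
    simp only
    rw [Finset.erase_right_comm]
    exact two_eq_zero' _
  · rintro ⟨x, y⟩ h _ heq
    simp only [mem_sigma, mem_erase] at h
    simp only [Sigma.mk.injEq, heq_eq_eq] at heq
    exact h.2.1 heq.1
  · rintro ⟨x, y⟩ h
    simp only [mem_sigma, mem_erase] at h ⊢
    exact ⟨h.2.2, h.2.1.symm, h.1⟩
  · rintro ⟨x, y⟩ h
    rfl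

theorem sum_erase_erase {α : Type} [DecidableEq α] (V : Finset α) (F : α → ZMod 2) :
    ∑ x ∈ V, ∑ b ∈ V.erase x, F b = (V.card : ZMod 2) * (∑ b ∈ V, F b) - ∑ b ∈ V, F b := by
  have h : ∀ x ∈ V, ∑ b ∈ V.erase x, F b = ∑ b ∈ V, F b - F x := fun x hx => by
    rw [Finset.sum_erase_eq_sub hx]
  rw [Finset.sum_congr rfl h, Finset.sum_sub_distrib, Finset.sum_const, nsmul_eq_mul]

theorem hw_split (A : Finset (Fin n)) (M : Fin n → Fin n → ZMod 2) {U V : Finset (Fin n)}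
    (hU : U ⊆ A) (hV : Disjoint V A) :
    hw A M (U ∪ V) = ∑ x ∈ U, gp M (U.erase x) V + ∑ x ∈ V, gp M U (V.erase x) := by
  classical
  have hUV : Disjoint U V := (Finset.disjoint_of_subset_right hU hV).symm
  unfold hw
  rw [Finset.sum_union hUV]
  have hnV : ∀ x ∈ V, x ∉ A := fun x hx hA => (Finset.disjoint_left.1 hV) hx hA
  congr 1
  · refine Finset.sum_congr rfl fun x hx => ?_
    unfold gw
    have e1 : (U ∪ V).erase x ∩ A = U.erase x := by
      ext y
      simp only [mem_inter, mem_erase, mem_union]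
      constructor
      · rintro ⟨⟨h1, h2 | h2⟩, h3⟩
        · exact ⟨h1, h2⟩
        · exact absurd h3 (hnV y h2)
      · rintro ⟨h1, h2⟩
        exact ⟨⟨h1, Or.inl h2⟩, hU h2⟩
    have e2 : (U ∪ V).erase x \ A = V := by
      ext y
      simp only [mem_sdiff, mem_erase, mem_union]
      constructor
      · rintro ⟨⟨h1, h2 | h2⟩, h3⟩
        · exact absurd (hU h2) h3
        · exact h2
      · intro h
        refine ⟨⟨?_, Or.inr h⟩, hnV y h⟩
        rintro rfl
        exact hnV y h (hU hx)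
    rw [e1, e2]
  · refine Finset.sum_congr rfl fun x hx => ?_
    unfold gw
    have e1 : (U ∪ V).erase x ∩ A = U := by
      ext y
      simp only [mem_inter, mem_erase, mem_union]
      constructor
      · rintro ⟨⟨h1, h2 | h2⟩, h3⟩
        · exact h2
        · exact absurd h3 (hnV y h2)
      · intro h
        refine ⟨⟨?_, Or.inl h⟩, hU h⟩
        rintro rfl
        exact hnV y hx (hU h)
    have e2 : (U ∪ V).erase x \ A = V.erase x := by
      ext y
      simp only [mem_sdiff, mem_erase, mem_union]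
      constructor
      · rintro ⟨⟨h1, h2 | h2⟩, h3⟩
        · exact absurd (hU h2) h3
        · exact ⟨h1, h2⟩
      · rintro ⟨h1, h2⟩
        exact ⟨⟨h1, Or.inr h2⟩, hnV y h2⟩
    rw [e1, e2]

theorem erase_ne_empty {U : Finset (Fin n)} (h : 2 ≤ U.card) {x : Fin n} (hx : x ∈ U) :
    U.erase x ≠ ∅ := by
  intro h0
  have h1 := card_erase_of_mem hx
  rw [h0, card_empty] at h1
  omega

theorem hw_31 (A : Finset (Fin n)) (M : Fin n → Fin n → ZMod 2) {U V : Finset (Fin n)}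
    (hU : U ⊆ A) (hV : Disjoint V A) (hU3 : U.card = 3) (hV1 : V.card = 1) :
    hw A M (U ∪ V) = 1 := by
  classical
  rw [hw_split A M hU hV]
  obtain ⟨b, rfl⟩ := card_eq_one.1 hV1
  have hU0 : U ≠ ∅ := by rintro rfl; simp at hU3
  have e1 : ∑ x ∈ ({b} : Finset (Fin n)), gp M U (({b} : Finset (Fin n)).erase x) = 1 := by
    rw [Finset.sum_singleton]
    unfold gp
    rw [Finset.erase_singleton]
    simp [hU0]
  have e2 : ∑ x ∈ U, gp M (U.erase x) {b} = 0 := by
    have h : ∀ x ∈ U, gp M (U.erase x) {b} = ∑ a ∈ U.erase x, M a b := by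
      intro x hx
      unfold gp
      rw [if_neg (by simp), if_neg (erase_ne_empty (by omega) hx), if_pos (card_singleton b)]
      simp
    rw [Finset.sum_congr rfl h, sum_erase_erase, hU3]
    generalize ∑ b_1 ∈ U, M b_1 b = z
    revert z; decide
  rw [e1, e2, zero_add]

theorem hw_13 (A : Finset (Fin n)) (M : Fin n → Fin n → ZMod 2) {U V : Finset (Fin n)}
    (hU : U ⊆ A) (hV : Disjoint V A) (hU1 : U.card = 1) (hV3 : V.card = 3) :
    hw A M (U ∪ V) = 1 := by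
  classical
  rw [hw_split A M hU hV]
  obtain ⟨a, rfl⟩ := card_eq_one.1 hU1
  have hV0 : V ≠ ∅ := by rintro rfl; simp at hV3
  have e1 : ∑ x ∈ ({a} : Finset (Fin n)), gp M (({a} : Finset (Fin n)).erase x) V = 1 := by
    rw [Finset.sum_singleton]
    unfold gp
    rw [Finset.erase_singleton]
    simp [hV0]
  have e2 : ∑ x ∈ V, gp M {a} (V.erase x) = 0 := by
    refine Finset.sum_eq_zero fun x hx => ?_
    unfold gp
    rw [if_neg (erase_ne_empty (by omega) hx), if_neg (by simp), if_neg]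
    · simp
    · rw [card_erase_of_mem hx]
      omega
  rw [e1, e2, add_zero]

theorem hw_22 (A : Finset (Fin n)) (M : Fin n → Fin n → ZMod 2) {U V : Finset (Fin n)}
    (hU : U ⊆ A) (hV : Disjoint V A) (hU2 : U.card = 2) (hV2 : V.card = 2) :
    hw A M (U ∪ V) = ∑ a ∈ U, ∑ b ∈ V, M a b := by
  classical
  rw [hw_split A M hU hV]
  have hV0 : V ≠ ∅ := by rintro rfl; simp at hV2
  have hU0 : U ≠ ∅ := by rintro rfl; simp at hU2
  have e1 : ∑ x ∈ U, gp M (U.erase x) V = 0 := by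
    refine Finset.sum_eq_zero fun x hx => ?_
    unfold gp
    rw [if_neg hV0, if_neg (erase_ne_empty (by omega) hx), if_neg (by omega)]
    simp
  have e2 : ∑ x ∈ V, gp M U (V.erase x) = ∑ x ∈ V, ∑ b ∈ V.erase x, ∑ a ∈ U, M a b := by
    refine Finset.sum_congr rfl fun x hx => ?_
    unfold gp
    rw [if_neg (erase_ne_empty (by omega) hx), if_neg hU0, if_pos (by
      rw [card_erase_of_mem hx]; omega), Finset.sum_comm]
    simp
  rw [e1, e2, sum_erase_erase, hV2, zero_add, Finset.sum_comm (s := U) (t := V)]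
  generalize ∑ x ∈ V, ∑ a ∈ U, M a x = z
  revert z; decide

/-- the hypergraph -/
def HM (A : Finset (Fin n)) (M : Fin n → Fin n → ZMod 2) : Finset (Finset (Fin n)) :=
  (powersetCard 4 univ).filter (fun Q => hw A M Q = 1)

theorem HM_even (A : Finset (Fin n)) (M : Fin n → Fin n → ZMod 2) {P : Finset (Fin n)}
    (hP : P.card = 5) : Even (nin (HM A M) P) := by
  classical
  rw [nin_eq (HM A M) (filter_subset _ _) P hP, ← ZMod.natCast_eq_zero_iff_even,
    ← hw_cocycle A M P, Nat.cast_sum]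
  refine Finset.sum_congr rfl fun x hx => ?_
  have h4 : P.erase x ∈ powersetCard 4 (univ : Finset (Fin n)) := by
    rw [mem_powersetCard]
    exact ⟨subset_univ _, by rw [card_erase_of_mem hx, hP]⟩
  by_cases h : hw A M (P.erase x) = 1
  · have h5 : P.erase x ∈ HM A M := mem_filter.2 ⟨h4, h⟩
    rw [if_pos h5, h, Nat.cast_one]
  · have h5 : P.erase x ∉ HM A M := fun h' => h (mem_filter.1 h').2
    rw [if_neg h5]
    have h01 : ∀ z : ZMod 2, z ≠ 1 → z = 0 := by decide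
    rw [h01 _ h, Nat.cast_zero]

/-- pairs of pairs -/
def P2 (A : Finset (Fin n)) : Finset (Finset (Fin n) × Finset (Fin n)) :=
  powersetCard 2 A ×ˢ powersetCard 2 Aᶜ

/-- average over all matrices -/
theorem exists_M (A : Finset (Fin n)) : ∃ M : Fin n → Fin n → ZMod 2,
    (P2 A).card ≤ 2 * ((P2 A).filter (fun p => ∑ a ∈ p.1, ∑ b ∈ p.2, M a b = 1)).card := by
  classical
  by_contra hcon
  push Not at hcon
  have h1 : ∑ M : Fin n → Fin n → ZMod 2,
      2 * ((P2 A).filter (fun p => ∑ a ∈ p.1, ∑ b ∈ p.2, M a b = 1)).card <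
      ∑ _M : Fin n → Fin n → ZMod 2, (P2 A).card :=
    Finset.sum_lt_sum_of_nonempty univ_nonempty fun M _ => hcon M
  have h2 : ∑ M : Fin n → Fin n → ZMod 2,
      2 * ((P2 A).filter (fun p => ∑ a ∈ p.1, ∑ b ∈ p.2, M a b = 1)).card =
      ∑ p ∈ P2 A, 2 * (univ.filter (fun M : Fin n → Fin n → ZMod 2 =>
        ∑ a ∈ p.1, ∑ b ∈ p.2, M a b = 1)).card := by
    simp only [Finset.card_filter, Finset.mul_sum]
    rw [Finset.sum_comm]
  have h3 : ∀ p ∈ P2 A, 2 * (univ.filter (fun M : Fin n → Fin n → ZMod 2 =>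
        ∑ a ∈ p.1, ∑ b ∈ p.2, M a b = 1)).card = Fintype.card (Fin n → Fin n → ZMod 2) := by
    rintro ⟨U, V⟩ hp
    simp only [P2, mem_product, mem_powersetCard] at hp
    obtain ⟨a0, ha0⟩ := card_pos.1 (show 0 < U.card by omega)
    obtain ⟨b0, hb0⟩ := card_pos.1 (show 0 < V.card by omega)
    simp only
    let φ : (Fin n → Fin n → ZMod 2) → (Fin n → Fin n → ZMod 2) :=
      fun M a b => M a b + (if a = a0 ∧ b = b0 then 1 else 0)
    have hφφ : ∀ M, φ (φ M) = M := by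
      intro M
      funext a b
      simp only [φ]
      rw [add_assoc, two_eq_zero', add_zero]
    have hs : ∀ M, ∑ a ∈ U, ∑ b ∈ V, φ M a b = (∑ a ∈ U, ∑ b ∈ V, M a b) + 1 := by
      intro M
      simp only [φ, Finset.sum_add_distrib]
      congr 1
      rw [Finset.sum_eq_single a0, Finset.sum_eq_single b0]
      · simp
      · intro b _ hb
        rw [if_neg (fun h => hb h.2)]
      · intro h; exact absurd hb0 h
      · intro a _ ha
        refine Finset.sum_eq_zero fun b _ => ?_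
        rw [if_neg (fun h => ha h.1)]
      · intro h; exact absurd ha0 h
    have hz : ∀ z : ZMod 2, ¬ (z = 1) ↔ z + 1 = 1 := by decide
    have hcard : (univ.filter (fun M : Fin n → Fin n → ZMod 2 =>
        ∑ a ∈ U, ∑ b ∈ V, M a b = 1)).card = (univ.filter (fun M : Fin n → Fin n → ZMod 2 =>
        ¬ (∑ a ∈ U, ∑ b ∈ V, M a b = 1))).card := by
      refine Finset.card_nbij' φ φ ?_ ?_ (fun M _ => hφφ M) (fun M _ => hφφ M)
      · intro M hM
        simp only [coe_filter, mem_univ, true_and, Set.mem_ofPred_eq] at hM ⊢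
        rw [hs, hM]
        decide
      · intro M hM
        simp only [coe_filter, mem_univ, true_and, Set.mem_ofPred_eq] at hM ⊢
        rw [hs]
        exact (hz _).1 hM
    have hadd := Finset.card_filter_add_card_filter_not (s := univ)
      (fun M : Fin n → Fin n → ZMod 2 => ∑ a ∈ U, ∑ b ∈ V, M a b = 1)
    rw [← hcard, Finset.card_univ] at hadd
    rw [← hadd]
    ring
  rw [h2, Finset.sum_congr rfl h3, Finset.sum_const, Finset.sum_const, Finset.card_univ,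
    smul_eq_mul, smul_eq_mul, mul_comm] at h1
  exact lt_irrefl _ h1

theorem card_HM (A : Finset (Fin n)) (M : Fin n → Fin n → ZMod 2) :
    (A.card.choose 3 * Aᶜ.card + A.card * Aᶜ.card.choose 3) +
      ((P2 A).filter (fun p => ∑ a ∈ p.1, ∑ b ∈ p.2, M a b = 1)).card ≤ (HM A M).card := by
  classical
  have hd : ∀ {V : Finset (Fin n)}, V ⊆ Aᶜ → Disjoint V A := fun {V} h =>
    Finset.disjoint_left.2 fun x hx hA => (mem_compl.1 (h hx)) hA
  set X1 : Finset (Finset (Fin n) × Finset (Fin n)) := powersetCard 3 A ×ˢ powersetCard 1 Aᶜ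
    with hX1
  set X2 : Finset (Finset (Fin n) × Finset (Fin n)) := powersetCard 1 A ×ˢ powersetCard 3 Aᶜ
    with hX2
  set X3 : Finset (Finset (Fin n) × Finset (Fin n)) :=
    (P2 A).filter (fun p => ∑ a ∈ p.1, ∑ b ∈ p.2, M a b = 1) with hX3
  have m1 : ∀ p, p ∈ X1 ↔ (p.1 ⊆ A ∧ p.1.card = 3) ∧ p.2 ⊆ Aᶜ ∧ p.2.card = 1 := fun p => by
    simp only [hX1, mem_product, mem_powersetCard]
  have m2 : ∀ p, p ∈ X2 ↔ (p.1 ⊆ A ∧ p.1.card = 1) ∧ p.2 ⊆ Aᶜ ∧ p.2.card = 3 := fun p => by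
    simp only [hX2, mem_product, mem_powersetCard]
  have m3 : ∀ p, p ∈ X3 ↔ ((p.1 ⊆ A ∧ p.1.card = 2) ∧ p.2 ⊆ Aᶜ ∧ p.2.card = 2) ∧
      ∑ a ∈ p.1, ∑ b ∈ p.2, M a b = 1 := fun p => by
    simp only [hX3, P2, mem_filter, mem_product, mem_powersetCard]
  have d12 : Disjoint X1 X2 := by
    rw [Finset.disjoint_left]
    intro p h1 h2
    have := ((m1 p).1 h1).1.2
    have := ((m2 p).1 h2).1.2
    omega
  have d123 : Disjoint (X1 ∪ X2) X3 := by
    rw [Finset.disjoint_left]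
    intro p h1 h3
    have k3 := ((m3 p).1 h3).1.1.2
    rcases mem_union.1 h1 with h | h
    · have := ((m1 p).1 h).1.2
      omega
    · have := ((m2 p).1 h).1.2
      omega
  have c1 : X1.card = A.card.choose 3 * Aᶜ.card := by
    rw [hX1, card_product, card_powersetCard, card_powersetCard, Nat.choose_one_right]
  have c2 : X2.card = A.card * Aᶜ.card.choose 3 := by
    rw [hX2, card_product, card_powersetCard, card_powersetCard, Nat.choose_one_right]
  rw [← c1, ← c2, ← card_union_of_disjoint d12, ← card_union_of_disjoint d123]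
  have hsub : ∀ p ∈ (X1 ∪ X2) ∪ X3, p.1 ⊆ A ∧ p.2 ⊆ Aᶜ := by
    intro p hp
    rcases mem_union.1 hp with h | h
    · rcases mem_union.1 h with h | h
      · exact ⟨((m1 p).1 h).1.1, ((m1 p).1 h).2.1⟩
      · exact ⟨((m2 p).1 h).1.1, ((m2 p).1 h).2.1⟩
    · exact ⟨((m3 p).1 h).1.1.1, ((m3 p).1 h).1.2.1⟩
  refine Finset.card_le_card_of_injOn (fun p => p.1 ∪ p.2) ?_ ?_
  · intro p hp
    have hp' : p ∈ (X1 ∪ X2) ∪ X3 := hp
    obtain ⟨hpA, hpB⟩ := hsub p hp'
    have hdis : Disjoint p.1 p.2 := (Finset.disjoint_of_subset_right hpA (hd hpB)).symm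
    have key : p.1.card + p.2.card = 4 ∧ hw A M (p.1 ∪ p.2) = 1 := by
      rcases mem_union.1 hp' with h | h
      · rcases mem_union.1 h with h | h
        · obtain ⟨⟨_, k1⟩, _, k2⟩ := (m1 p).1 h
          exact ⟨by omega, hw_31 A M hpA (hd hpB) k1 k2⟩
        · obtain ⟨⟨_, k1⟩, _, k2⟩ := (m2 p).1 h
          exact ⟨by omega, hw_13 A M hpA (hd hpB) k1 k2⟩
      · obtain ⟨⟨⟨_, k1⟩, _, k2⟩, k3⟩ := (m3 p).1 h
        exact ⟨by omega, by rw [hw_22 A M hpA (hd hpB) k1 k2]; exact k3⟩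
    change p.1 ∪ p.2 ∈ HM A M
    unfold HM
    rw [mem_filter, mem_powersetCard]
    exact ⟨⟨subset_univ _, by rw [card_union_of_disjoint hdis]; exact key.1⟩, key.2⟩
  · intro p hp q hq hpq
    obtain ⟨hpA, hpB⟩ := hsub p hp
    obtain ⟨hqA, hqB⟩ := hsub q hq
    have hpq' : p.1 ∪ p.2 = q.1 ∪ q.2 := hpq
    have r1 : ∀ {U V : Finset (Fin n)}, U ⊆ A → V ⊆ Aᶜ → (U ∪ V) ∩ A = U := by
      intro U V hU hV
      ext x
      simp only [mem_inter, mem_union]
      constructor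
      · rintro ⟨h | h, hA⟩
        · exact h
        · exact absurd hA (mem_compl.1 (hV h))
      · intro h; exact ⟨Or.inl h, hU h⟩
    have r2 : ∀ {U V : Finset (Fin n)}, U ⊆ A → V ⊆ Aᶜ → (U ∪ V) \ A = V := by
      intro U V hU hV
      ext x
      simp only [mem_sdiff, mem_union]
      constructor
      · rintro ⟨h | h, hA⟩
        · exact absurd (hU h) hA
        · exact h
      · intro h; exact ⟨Or.inr h, mem_compl.1 (hV h)⟩
    refine Prod.ext ?_ ?_
    · rw [← r1 hpA hpB, hpq', r1 hqA hqB]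
    · rw [← r2 hpA hpB, hpq', r2 hqA hqB]

theorem t : S_lower := by
  intro ε hε
  refine ⟨max 5 (⌈14 / ε⌉₊ + 1), fun n hn => ?_⟩
  classical
  have hn5 : 5 ≤ n := (le_max_left _ _).trans hn
  have hnε : 14 / ε ≤ (n : ℝ) := by
    have h1 : ⌈14 / ε⌉₊ + 1 ≤ n := (le_max_right _ _).trans hn
    have h2 := Nat.le_ceil (14 / ε)
    have h3 : ((⌈14 / ε⌉₊ + 1 : ℕ) : ℝ) ≤ n := by exact_mod_cast h1
    push_cast at h3
    linarith
  set A : Finset (Fin n) := univ.filter (fun i => i.val < n / 2) with hA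
  have hAc : A.card = n / 2 := by
    rw [hA, Fin.card_filter_val_lt]
    exact min_eq_right (Nat.div_le_self _ _)
  have hBc : Aᶜ.card = n - n / 2 := by
    rw [card_compl, Fintype.card_fin, hAc]
  obtain ⟨M, hM⟩ := exists_M A
  have hH := card_HM A M
  refine ⟨HM A M, filter_subset _ _, fun P hP => HM_even A M (mem_powersetCard.1 hP).2, ?_⟩
  have hP2 : (P2 A).card = A.card.choose 2 * Aᶜ.card.choose 2 := by
    unfold P2
    rw [card_product, card_powersetCard, card_powersetCard]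
  rw [hP2, hAc, hBc] at hM
  rw [hAc, hBc] at hH
  set α := n / 2 with hα
  set β := n - n / 2 with hβ
  set z : ℝ := ((n : ℝ) - 5) / 2 with hz
  have hnR : (5 : ℝ) ≤ n := by exact_mod_cast hn5
  have hz0 : 0 ≤ z := by rw [hz]; linarith
  have ha : z ≤ ((α + 1 - 3 : ℕ) : ℝ) := by
    have h1 : n ≤ 2 * (α + 1 - 3) + 5 := by omega
    have h2 : (n : ℝ) ≤ 2 * ((α + 1 - 3 : ℕ) : ℝ) + 5 := by exact_mod_cast h1
    rw [hz]; linarith
  have hb : z ≤ ((β + 1 - 3 : ℕ) : ℝ) := by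
    have h1 : n ≤ 2 * (β + 1 - 3) + 5 := by omega
    have h2 : (n : ℝ) ≤ 2 * ((β + 1 - 3 : ℕ) : ℝ) + 5 := by exact_mod_cast h1
    rw [hz]; linarith
  have ha2 : z ≤ ((α + 1 - 2 : ℕ) : ℝ) := by
    have h1 : n ≤ 2 * (α + 1 - 2) + 5 := by omega
    have h2 : (n : ℝ) ≤ 2 * ((α + 1 - 2 : ℕ) : ℝ) + 5 := by exact_mod_cast h1
    rw [hz]; linarith
  have hb2 : z ≤ ((β + 1 - 2 : ℕ) : ℝ) := by
    have h1 : n ≤ 2 * (β + 1 - 2) + 5 := by omega
    have h2 : (n : ℝ) ≤ 2 * ((β + 1 - 2 : ℕ) : ℝ) + 5 := by exact_mod_cast h1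
    rw [hz]; linarith
  have ha1 : z ≤ (α : ℝ) := by
    have h1 : n ≤ 2 * α + 5 := by omega
    have h2 : (n : ℝ) ≤ 2 * (α : ℝ) + 5 := by exact_mod_cast h1
    rw [hz]; linarith
  have hb1 : z ≤ (β : ℝ) := by
    have h1 : n ≤ 2 * β + 5 := by omega
    have h2 : (n : ℝ) ≤ 2 * (β : ℝ) + 5 := by exact_mod_cast h1
    rw [hz]; linarith
  have c3 : ∀ m : ℕ, z ≤ ((m + 1 - 3 : ℕ) : ℝ) → z ^ 3 / 6 ≤ (m.choose 3 : ℝ) := by
    intro m hm
    have h1 := Nat.pow_le_choose (α := ℝ) 3 m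
    have h2 : (z ^ 3) ≤ ((m + 1 - 3 : ℕ) : ℝ) ^ 3 := pow_le_pow_left₀ hz0 hm 3
    have h3 : ((Nat.factorial 3 : ℕ) : ℝ) = 6 := by norm_num [Nat.factorial]
    rw [h3] at h1
    exact (div_le_div_of_nonneg_right h2 (by norm_num)).trans h1
  have c2 : ∀ m : ℕ, z ≤ ((m + 1 - 2 : ℕ) : ℝ) → z ^ 2 / 2 ≤ (m.choose 2 : ℝ) := by
    intro m hm
    have h1 := Nat.pow_le_choose (α := ℝ) 2 m
    have h2 : (z ^ 2) ≤ ((m + 1 - 2 : ℕ) : ℝ) ^ 2 := pow_le_pow_left₀ hz0 hm 2
    have h3 : ((Nat.factorial 2 : ℕ) : ℝ) = 2 := by norm_num [Nat.factorial]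
    rw [h3] at h1
    exact (div_le_div_of_nonneg_right h2 (by norm_num)).trans h1
  have hHR : ((α.choose 3 : ℝ) * β + α * (β.choose 3 : ℝ)) +
      (((P2 A).filter (fun p => ∑ a ∈ p.1, ∑ b ∈ p.2, M a b = 1)).card : ℝ) ≤
      ((HM A M).card : ℝ) := by exact_mod_cast hH
  have hMR : (α.choose 2 : ℝ) * (β.choose 2 : ℝ) ≤
      2 * (((P2 A).filter (fun p => ∑ a ∈ p.1, ∑ b ∈ p.2, M a b = 1)).card : ℝ) := by
    exact_mod_cast hM
  have l1 : z ^ 3 / 6 * z ≤ (α.choose 3 : ℝ) * β :=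
    mul_le_mul (c3 α ha) hb1 hz0 (by positivity)
  have l2 : z * (z ^ 3 / 6) ≤ (α : ℝ) * (β.choose 3 : ℝ) :=
    mul_le_mul ha1 (c3 β hb) (by positivity) (by positivity)
  have l3 : (z ^ 2 / 2) * (z ^ 2 / 2) ≤ (α.choose 2 : ℝ) * (β.choose 2 : ℝ) :=
    mul_le_mul (c2 α ha2) (c2 β hb2) (by positivity) (by positivity)
  have l4 : 11 / 24 * z ^ 4 ≤ ((HM A M).card : ℝ) := by nlinarith
  refine le_trans ?_ l4
  by_cases hε1 : 11 / 16 - ε ≤ 0
  · have : (11 / 16 - ε) * (n.choose 4 : ℝ) ≤ 0 :=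
      mul_nonpos_of_nonpos_of_nonneg hε1 (by positivity)
    exact this.trans (by positivity)
  · push Not at hε1
    have h1 : (n.choose 4 : ℝ) ≤ (n : ℝ) ^ 4 / 24 := by
      have := Nat.choose_le_pow_div (α := ℝ) 4 n
      have h3 : ((Nat.factorial 4 : ℕ) : ℝ) = 24 := by norm_num [Nat.factorial]
      rwa [h3] at this
    refine (mul_le_mul_of_nonneg_left h1 hε1.le).trans ?_
    have h2 : 14 ≤ (n : ℝ) * ε := by
      rwa [div_le_iff₀ hε] at hnε
    have h3 : (n : ℝ) ^ 4 - 20 * n ^ 3 ≤ ((n : ℝ) - 5) ^ 4 := by nlinarith [sq_nonneg ((n : ℝ) - 2)]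
    have h4 : 14 * (n : ℝ) ^ 3 ≤ (n : ℝ) * ε * (n : ℝ) ^ 3 :=
      mul_le_mul_of_nonneg_right h2 (by positivity)
    rw [hz]
    have h5 : ((n : ℝ) - 5) ^ 4 = 16 * (((n : ℝ) - 5) / 2) ^ 4 := by ring
    nlinarith

end Pool.Agent.Y705.Q440.Lower
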